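import Pool.Agent.Lib.MP_50b720_co.Full.CutMain
import Pool.Agent.Lib.MP_50b720_co.Full.Spec
import Pool.Agent.Lib.MP_50b720_co.Geom

set_option autoImplicit false

namespace Pool.Agent.Results.MP_50b720_co.Classification

open Pool.Agent.Lib.MP_50b720_co SimpleGraph

universe u

lemma circ_univ_of_ind {V W : Type*} {H : SimpleGraph W} {G : SimpleGraph V}
    (h : H.IsIndContained G) (hG : Circ G Set.univ) : Circ H Set.univ := by
  obtain ⟨f⟩ := h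
  exact hG.of_emb f (fun x _ => trivial)

/-- a minimal non-circle graph containing a non-circle graph is isomorphic to it -/
lemma iso_of_min {V W : Type*} [Finite V] {H : SimpleGraph W} {G : SimpleGraph V}
    (hG : IsMinNonCircle G) (h : H.IsIndContained G) (hnc : ¬ Circ H Set.univ) :
    Nonempty (G ≃g H) := by
  obtain ⟨f⟩ := h
  have hsurj : Function.Surjective f := by
    by_contra hns
    have hne : Set.range f ≠ Set.univ := fun h => hns (Set.range_eq_univ.mp h)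
    have h1 := hG.2 _ hne
    rw [isCircleGraph_iff] at h1
    apply hnc
    have f' : H ↪g G.induce (Set.range f) :=
      { toFun := fun x => ⟨f x, x, rfl⟩
        inj' := fun x y hxy => f.injective (congrArg Subtype.val hxy)
        map_rel_iff' := by
          intro x y
          exact f.map_adj_iff }
    exact circ_univ_of_ind ⟨f'⟩ h1
  refine ⟨RelIso.symm ⟨Equiv.ofBijective f ⟨f.injective, hsurj⟩, ?_⟩⟩
  intro x y
  exact f.map_adj_iff

lemma listed_congr {V W : Type*} {H : SimpleGraph W} {G : SimpleGraph V} (h : IsListed H)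
    (e : G ≃g H) : IsListed G := by
  rcases h with ⟨p, hp, ⟨f⟩⟩ | ⟨k, hk, hp, ⟨f⟩⟩ | ⟨k, hk, hp, ⟨f⟩⟩ | ⟨k, hk, ⟨f⟩⟩ | ⟨k, hk, ⟨f⟩⟩ |
    ⟨j, hj, hp, ⟨f⟩⟩ | ⟨j, hj, hp, ⟨f⟩⟩ | ⟨j, hj, hp, ⟨f⟩⟩ | ⟨j, hj, hp, ⟨f⟩⟩ | ⟨j, hj, hp, ⟨f⟩⟩ |
    ⟨j, hj, hp, ⟨f⟩⟩
  · exact Or.inl ⟨p, hp, ⟨e.trans f⟩⟩
  · exact Or.inr (Or.inl ⟨k, hk, hp, ⟨e.trans f⟩⟩)
  · exact Or.inr (Or.inr (Or.inl ⟨k, hk, hp, ⟨e.trans f⟩⟩))
  · exact Or.inr (Or.inr (Or.inr (Or.inl ⟨k, hk, ⟨e.trans f⟩⟩)))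
  · exact Or.inr (Or.inr (Or.inr (Or.inr (Or.inl ⟨k, hk, ⟨e.trans f⟩⟩))))
  · exact Or.inr (Or.inr (Or.inr (Or.inr (Or.inr (Or.inl ⟨j, hj, hp, ⟨e.trans f⟩⟩)))))
  · exact Or.inr (Or.inr (Or.inr (Or.inr (Or.inr (Or.inr (Or.inl ⟨j, hj, hp, ⟨e.trans f⟩⟩))))))
  · exact Or.inr (Or.inr (Or.inr (Or.inr (Or.inr (Or.inr (Or.inr (Or.inl
      ⟨j, hj, hp, ⟨e.trans f⟩⟩)))))))
  · exact Or.inr (Or.inr (Or.inr (Or.inr (Or.inr (Or.inr (Or.inr (Or.inr (Or.inl
      ⟨j, hj, hp, ⟨e.trans f⟩⟩))))))))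
  · exact Or.inr (Or.inr (Or.inr (Or.inr (Or.inr (Or.inr (Or.inr (Or.inr (Or.inr (Or.inl
      ⟨j, hj, hp, ⟨e.trans f⟩⟩)))))))))
  · exact Or.inr (Or.inr (Or.inr (Or.inr (Or.inr (Or.inr (Or.inr (Or.inr (Or.inr (Or.inr
      ⟨j, hj, hp, ⟨e.trans f⟩⟩)))))))))

lemma listed_finite {W : Type*} {H : SimpleGraph W} (h : IsListed H) : Finite W := by
  rcases h with ⟨p, hp, ⟨f⟩⟩ | ⟨k, hk, hp, ⟨f⟩⟩ | ⟨k, hk, hp, ⟨f⟩⟩ | ⟨k, hk, ⟨f⟩⟩ | ⟨k, hk, ⟨f⟩⟩ |
    ⟨j, hj, hp, ⟨f⟩⟩ | ⟨j, hj, hp, ⟨f⟩⟩ | ⟨j, hj, hp, ⟨f⟩⟩ | ⟨j, hj, hp, ⟨f⟩⟩ | ⟨j, hj, hp, ⟨f⟩⟩ |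
    ⟨j, hj, hp, ⟨f⟩⟩
  · exact Finite.of_equiv _ f.toEquiv.symm
  · haveI : NeZero k := ⟨by omega⟩
    exact Finite.of_equiv _ f.toEquiv.symm
  · haveI : NeZero k := ⟨by omega⟩
    exact Finite.of_equiv _ f.toEquiv.symm
  · exact Finite.of_equiv _ f.toEquiv.symm
  · exact Finite.of_equiv _ f.toEquiv.symm
  · exact Finite.of_equiv _ f.toEquiv.symm
  · exact Finite.of_equiv _ f.toEquiv.symm
  · exact Finite.of_equiv _ f.toEquiv.symm
  · exact Finite.of_equiv _ f.toEquiv.symm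
  · exact Finite.of_equiv _ f.toEquiv.symm
  · exact Finite.of_equiv _ f.toEquiv.symm

lemma listed_min {W : Type*} {H : SimpleGraph W} (h : IsListed H) :
    IsChordal H ∧ IsMinNonCircle H := by
  haveI := listed_finite h
  obtain ⟨h1, h2, h3⟩ := h.spec
  refine ⟨h1, fun hG => h2 ((isCircleGraph_iff H).mp hG), fun S hS => ?_⟩
  rw [isCircleGraph_iff]
  exact (h3 S hS).of_emb (Embedding.induce S) (fun y _ => y.2)

/-- **The chordal minimally non-circle graphs.** A finite chordal graph is a circle graph if and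
only if it contains none of the graphs of the list as an induced subgraph, and it is minimally
non-circle if and only if it is isomorphic to a graph of the list; every graph of the list is
finite, chordal and minimally non-circle. The list is `IsListed`: twenty sporadic graphs
(`sporadic`) and ten infinite families. -/
theorem result :
    (∀ (V : Type u) [Finite V] (G : SimpleGraph V), IsChordal G →
      (IsCircleGraph G ↔
        ∀ (W : Type) (H : SimpleGraph W), IsListed H → ¬ H.IsIndContained G) ∧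
      (IsMinNonCircle G ↔ IsListed G)) ∧
    (∀ (V : Type u) (G : SimpleGraph V), IsListed G →
      Finite V ∧ IsChordal G ∧ IsMinNonCircle G) := by
  refine ⟨?_, fun V G h => ⟨listed_finite h, listed_min h⟩⟩
  intro V _ G hch
  have hiff : IsCircleGraph G ↔
      ∀ (W : Type) (H : SimpleGraph W), IsListed H → ¬ H.IsIndContained G := by
    rw [isCircleGraph_iff]
    constructor
    · intro h W H hH hc
      exact hH.spec.2.1 (circ_univ_of_ind hc h)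
    · intro h
      have hN : NoListed G :=
        { ch := hch
          sp := fun p hp => h _ _ (Or.inl ⟨p, hp, ⟨Iso.refl⟩⟩)
          sn := fun k hk hp => h _ _ (Or.inr (Or.inl ⟨k, hk, hp, ⟨Iso.refl⟩⟩))
          cs := fun k hk hp => h _ _ (Or.inr (Or.inr (Or.inl ⟨k, hk, hp, ⟨Iso.refl⟩⟩)))
          f1 := fun k hk => h _ _ (Or.inr (Or.inr (Or.inr (Or.inl ⟨k, hk, ⟨Iso.refl⟩⟩))))
          f2 := fun k hk => h _ _ (Or.inr (Or.inr (Or.inr (Or.inr (Or.inl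
            ⟨k, hk, ⟨Iso.refl⟩⟩)))))
          n1 := fun j hj hp => h _ _ (Or.inr (Or.inr (Or.inr (Or.inr (Or.inr (Or.inl
            ⟨j, hj, hp, ⟨Iso.refl⟩⟩))))))
          n2 := fun j hj hp => h _ _ (Or.inr (Or.inr (Or.inr (Or.inr (Or.inr (Or.inr (Or.inl
            ⟨j, hj, hp, ⟨Iso.refl⟩⟩)))))))
          s3 := fun j hj hp => h _ _ (Or.inr (Or.inr (Or.inr (Or.inr (Or.inr (Or.inr (Or.inr
            (Or.inl ⟨j, hj, hp, ⟨Iso.refl⟩⟩))))))))
          s4 := fun j hj hp => h _ _ (Or.inr (Or.inr (Or.inr (Or.inr (Or.inr (Or.inr (Or.inr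
            (Or.inr (Or.inl ⟨j, hj, hp, ⟨Iso.refl⟩⟩)))))))))
          s5 := fun j hj hp => h _ _ (Or.inr (Or.inr (Or.inr (Or.inr (Or.inr (Or.inr (Or.inr
            (Or.inr (Or.inr (Or.inl ⟨j, hj, hp, ⟨Iso.refl⟩⟩))))))))))
          s6 := fun j hj hp => h _ _ (Or.inr (Or.inr (Or.inr (Or.inr (Or.inr (Or.inr (Or.inr
            (Or.inr (Or.inr (Or.inr ⟨j, hj, hp, ⟨Iso.refl⟩⟩)))))))))) }
      exact hN.circ Set.univ
  refine ⟨hiff, ?_, fun h => (listed_min h).2⟩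
  intro hmin
  by_contra hcon
  apply hmin.1
  rw [hiff]
  intro W H hH hc
  obtain ⟨e⟩ := iso_of_min hmin hc hH.spec.2.1
  exact hcon (listed_congr hH e)

end Pool.Agent.Results.MP_50b720_co.Classification
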